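import Mathlib
import Pool.Agent.V11234.HD.Sem

set_option autoImplicit false

namespace Pool.Agent.Results.MP_5f3cbe_lc.AdmissibleDefinable

open Metric Set Complex Filter Topology Asymptotics Pool.Agent.V11234.HD
  Pool.Agent.V11234.HD.Const Pool.Agent.V11234.HD.Adm

/-- Extension by zero of a function on the disc. -/
noncomputable def ext0 (f : HD) (z : ℂ) : ℂ :=
  open Classical in if h : z ∈ ball (0 : ℂ) 1 then f.1 ⟨z, h⟩ else 0

/-- The Nevanlinna characteristic `T(r, f)`, for `0 < r < 1`. -/
noncomputable def T (r : ℝ) (f : HD) : ℝ :=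
  (2 * Real.pi)⁻¹ * ∫ θ in (0 : ℝ)..2 * Real.pi,
    max (Real.log ‖ext0 f (r * exp (θ * I))‖) 0

/-- Admissible functions: `T(r, f)` is not `O(log (1 / (1 - r)))` as `r → 1⁻`. -/
def Admissible (f : HD) : Prop :=
  ¬ ((fun r : ℝ => T r f) =O[𝓝[<] 1] (fun r : ℝ => Real.log (1 / (1 - r))))

theorem T_eq {F : ℂ → ℂ} (hF : DifferentiableOn ℂ F (ball 0 1)) {r : ℝ} (hr0 : 0 < r)
    (hr1 : r < 1) : T r (mk F hF) = TF F r := by
  unfold T TF
  rw [Real.circleAverage_def, smul_eq_mul]
  congr 1
  apply intervalIntegral.integral_congr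
  intro θ _
  have h1 : circleMap 0 r θ = r * exp (θ * I) := by simp [circleMap]
  have h2 : (r : ℂ) * exp (θ * I) ∈ ball (0 : ℂ) 1 := by
    rw [mem_ball_zero_iff, norm_mul, Complex.norm_exp_ofReal_mul_I, mul_one, Complex.norm_real,
      Real.norm_of_nonneg hr0.le]
    exact hr1
  simp only
  rw [h1, ext0, dif_pos h2]
  rfl

theorem admissible_iff {F : ℂ → ℂ} (hF : DifferentiableOn ℂ F (ball 0 1)) :
    Admissible (mk F hF) ↔ ¬ NA F := by
  rw [NA_iff hF]
  unfold Admissible
  rw [not_iff_not]
  have hev : (fun r : ℝ => T r (mk F hF)) =ᶠ[𝓝[<] 1] fun r => TF F r := by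
    filter_upwards [Ioo_mem_nhdsLT (by norm_num : (0 : ℝ) < 1)] with r hr
    exact T_eq hF hr.1 hr.2
  exact isBigO_congr hev (EventuallyEq.refl _ _)

theorem def_Un : Def1 Un := def_unit

theorem def_In : Def2 In :=
  Def.and (def_Q.app (.var _)) (Def.not (def_Un.app (.sub (.var _) (.var _))))

theorem def_Vl : Def4 Vl :=
  Def.ex (Def.eq (.sub (.var _) (.var _)) (.mul (.sub (.var _) (.var _)) (.var _)))

theorem def_Into : Def2 Into :=
  Def.all (Def.all (Def.imp (def_In.app (.var _) (.var _)) (Def.imp (def_Q.app (.var _))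
    (Def.imp (def_Vl.app (.var _) (.var _) (.var _) (.var _)) (def_In.app (.var _) (.var _))))))

theorem def_Dil : Def4 Dil :=
  Def.all (Def.all (Def.imp (def_In.app (.var _) (.var _)) (Def.imp (def_Q.app (.var _))
    (Def.iff (def_Vl.app (.var _) (.var _) (.var _) (.var _))
      (def_Vl.app (.var _) (.var _) (.mul (.var _) (.var _)) (.var _))))))

theorem def_Mult : Def2 Mult :=
  Def.and (Def.not (Def.eq (.var _) .zero)) (Def.all (Def.all (Def.all (Def.all
    (Def.imp (def_In.app (.var _) (.var _)) (Def.imp (def_In.app (.var _) (.var _))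
    (Def.imp (def_Q.app (.var _)) (Def.imp (def_Q.app (.var _))
    (Def.imp (def_Vl.app (.var _) (.var _) (.var _) (.var _))
    (Def.imp (def_Vl.app (.var _) (.var _) (.var _) (.var _))
    (def_Vl.app (.var _) (.var _) (.mul (.var _) (.var _)) (.mul (.var _) (.var _)))))))))))))

theorem def_Cmp : Def4 Cmp :=
  Def.ex (Def.ex (Def.ex (Def.and (def_Q.app (.var _)) (Def.and (def_Q.app (.var _))
    (Def.and (def_In.app (.var _) (.var _)) (Def.and
    (def_Vl.app (.var _) (.var _) .zero (.var _)) (Def.and
    (def_Vl.app (.var _) (.var _) (.var _) (.var _))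
    (Def.eq (.var _) (.mul (.var _) (.var _))))))))))

/-- `Good`, as a predicate of assignments. -/
theorem def_Good : Def (fun v : ℕ → HD => Good (v 0) (v 1) (v 2) (v 3) (v 4)) :=
  Def.ex (Def.ex (Def.and (def_Dil.app (.var _) (.var _) (.var _) (.var _))
    (Def.and (def_Un.app (.var _)) (Def.and (def_Into.app (.var _) (.var _))
    (Def.and (def_Into.app (.var _) (.mul (.var _) (.var _)))
    (def_Cmp.app (.var _) (.var _) (.var _) (.var _)))))))

theorem def_NonAdm : Def2 NonAdm := by
  unfold NonAdm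
  refine Def.ex (Def.and (def_Mult.app (.var _) (.var _)) (Def.all (Def.all (Def.imp
    (def_In.app (.var _) (.var _)) (Def.imp (def_Q.app (.var _)) (Def.imp
    (Def.not (Def.eq (.var _) .zero)) (Def.imp (def_In.app (.var _) (.add (.var _) (.var _)))
    (Def.imp (Def.all (Def.imp (def_In.app (.var _) (.var _)) (def_In.app (.var _)
      (.add (.var _) (.mul (.var _) (.var _))))))
    ?_))))))))
  exact Def.subst def_Good (σ := fun i => match i with
      | 0 => fun v => v 3 | 1 => fun v => v 4 | 2 => fun v => v 1 | 3 => fun v => v 0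
      | _ => fun v => v 2)
    (fun i => by rcases i with _ | _ | _ | _ | i <;> exact .var _)

theorem def_Coord : Def1 Coord := by
  unfold Coord
  refine Def.and ?_ (Def.and ?_ (Def.and ?_ (Def.and ?_ ?_)))
  · exact Def.all (Def.imp (def_Q.app (.var _)) (Def.or (def_Un.app (.sub (.var _) (.var _)))
      (def_Irr.app (.sub (.var _) (.var _)))))
  · exact def_In.app (.var _) .zero
  · exact Def.all (Def.all (Def.imp (def_In.app (.var _) (.var _)) (Def.imp
      (def_In.app (.var _) (.var _)) (def_In.app (.var _) (.mul (.var _) (.var _))))))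
  · exact Def.all (Def.all (Def.imp (def_In.app (.var _) (.var _)) (Def.imp
      (def_Q.app (.var _)) (Def.imp (Def.eq (.mul (.var _) (.var _)) .one)
      (Def.not (def_In.app (.var _) (.var _)))))))
  · exact Def.all (Def.all (Def.all (Def.imp (def_Q.app (.var _)) (Def.imp
      (def_Q.app (.var _)) (Def.imp (Def.eq (.mul (.var _) (.var _)) .one)
      (Def.imp (Def.not (def_In.app (.var _) (.var _))) (Def.imp
      (Def.not (def_In.app (.var _) (.var _))) (Def.imp (def_In.app (.var _) (.var _))
      (def_In.app (.var _) (.mul (.var _) (.var _)))))))))))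

theorem def_AdmF : Def1 AdmF :=
  Def.ex (Def.and (def_Coord.app (.var _)) (Def.not (def_NonAdm.app (.var _) (.var _))))

/-- There is a first-order formula in the language of rings, without parameters, that defines
the set of admissible functions in the ring of holomorphic functions on the unit disc. -/
theorem result : ∃ φ : FirstOrder.Language.ring.Formula (Fin 1), ∀ f : HD,
    φ.Realize (fun _ => f) ↔ Admissible f := by
  obtain ⟨φ, hφ⟩ := def_AdmF.formula
  refine ⟨φ, fun f => (hφ f).trans ?_⟩
  obtain ⟨F, hF, rfl⟩ := rep f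
  rw [AdmF_iff hF, admissible_iff hF]

end Pool.Agent.Results.MP_5f3cbe_lc.AdmissibleDefinable
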